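import Mathlib

set_option autoImplicit false

namespace Pool.Agent.Results.MP_d96af6_lc.NotLocFin

/-- Intuitionistic formulas in the variables `p_0, …, p_(k-1)`. -/
inductive Fm (k : ℕ)
  | var (i : Fin k)
  | bot
  | and (φ ψ : Fm k)
  | or (φ ψ : Fm k)
  | imp (φ ψ : Fm k)

/-- Kripke forcing on a preorder. -/
def force {W : Type} [Preorder W] {k : ℕ} (V : Fin k → Set W) : W → Fm k → Prop
  | x, .var i => x ∈ V i
  | _, .bot => False
  | x, .and φ ψ => force V x φ ∧ force V x ψ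
  | x, .or φ ψ => force V x φ ∨ force V x ψ
  | x, .imp φ ψ => ∀ y, x ≤ y → force V y φ → force V y ψ

/-- Membership in the intermediate logic of `W`. -/
def ILog (W : Type) [Preorder W] {k : ℕ} (φ : Fm k) : Prop :=
  ∀ V : Fin k → Set W, (∀ i, IsUpperSet (V i)) → ∀ x, force V x φ

def LocFin (W : Type) [Preorder W] : Prop :=
  ∀ k, ∃ s : Set (Fm k), s.Finite ∧ ∀ φ, ∃ ψ ∈ s, ILog W (.and (.imp φ ψ) (.imp ψ φ))

def ab : ℕ → Fm 2 × Fm 2
  | 0 => (.var 0, .var 1)
  | j + 1 => (.or (ab j).1 (ab j).2, .imp (ab j).2 (ab j).1)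

section
variable {n : ℕ} (N : ℤ)

def f (x : Fin (n + 2) → ℕ) : ℤ := N - 2 * x 0 - 3 * x 1

def V : Fin 2 → Set (Fin (n + 2) → ℕ) := ![{x | f N x < 0}, {x | f N x ≤ -2 ∨ f N x = 0}]

lemma f_le {x y : Fin (n + 2) → ℕ} (h : x ≤ y) : f N y = f N x ∨ f N y ≤ f N x - 2 := by
  have h0 : x 0 ≤ y 0 := h 0
  have h1 : x 1 ≤ y 1 := h 1
  simp only [f]
  omega

lemma f_sur (x : Fin (n + 2) → ℕ) (m : ℤ) (h : m ≤ f N x - 2) : ∃ y, x ≤ y ∧ f N y = m := by
  obtain ⟨a, b, e⟩ : ∃ a b : ℕ, 2 * (a : ℤ) + 3 * b = f N x - m :=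
    ⟨((f N x - m).toNat - 3 * ((f N x - m).toNat % 2)) / 2, (f N x - m).toNat % 2, by omega⟩
  refine ⟨x + Pi.single 0 a + Pi.single 1 b, fun i => ?_, ?_⟩
  · simp only [Pi.add_apply]
    omega
  · have : (0 : Fin (n + 2)) ≠ 1 := by simp
    simp only [f] at e ⊢
    simp [Pi.single_apply, this, this.symm]
    omega

lemma up (i : Fin 2) : IsUpperSet (V (n := n) N i) := by
  intro x y h
  have := f_le N h
  fin_cases i <;> simp [V] <;> omega

lemma force_ab (j : ℕ) : ∀ x : Fin (n + 2) → ℕ, (force (V N) x (ab j).1 ↔ f N x < j) ∧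
    (force (V N) x (ab j).2 ↔ f N x ≤ j - 2 ∨ f N x = j) := by
  induction j with
  | zero => exact fun x => by simp [ab, force, V]
  | succ j ih =>
    intro x
    simp only [ab, force, ih]
    refine ⟨by push_cast; omega, fun h => ?_, fun h y hy => ?_⟩
    · by_contra hc
      push_cast at hc
      by_cases e : f N x = j
      · have := h x le_rfl (Or.inr e)
        omega
      · obtain ⟨y, h1, h2⟩ := f_sur N x j (by omega)
        have := h y h1 (Or.inr h2)
        omega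
    · have := f_le N hy
      push_cast at h
      omega

end

theorem result (n : ℕ) (hn : 2 ≤ n) : ¬ LocFin (Fin n → ℕ) := by
  obtain ⟨n, rfl⟩ : ∃ m, n = m + 2 := ⟨n - 2, by omega⟩
  intro h
  obtain ⟨s, hs, h⟩ := h 2
  choose g hg hg' using h
  have := hs.to_subtype
  have main : ∀ j k : ℕ, j < k → g (ab j).1 ≠ g (ab k).1 := by
    intro j k hlt e
    have h1 := (hg' (ab j).1 (V j) (up _) 0).2 0 le_rfl
    have h2 := (hg' (ab k).1 (V j) (up _) 0).1 0 le_rfl
    rw [← e] at h2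
    have h3 := (force_ab (n := n) j j 0).1.1 (h1 (h2 ((force_ab j k 0).1.2 (by simpa [f]))))
    simp [f] at h3
  obtain ⟨j, k, hne, e⟩ := Finite.exists_ne_map_eq_of_infinite
    fun j => (⟨g (ab j).1, hg _⟩ : s)
  have e' := congrArg Subtype.val e
  rcases lt_or_gt_of_ne hne with h1 | h1
  · exact main _ _ h1 e'
  · exact main _ _ h1 e'.symm

end Pool.Agent.Results.MP_d96af6_lc.NotLocFin
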